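import Pool.Agent.T2H58.LR.DD

/-! Powers of `1 + p ^ a D` in a commutative ring. -/

set_option autoImplicit false

namespace Pool.Agent.T2H58.LR

open Finset

theorem padic_lt (p : ℕ) [hp : Fact p.Prime] (k : ℕ) : padicValNat p (k + 1) ≤ k := by
  have h1 : p ^ padicValNat p (k + 1) ∣ k + 1 := pow_padicValNat_dvd
  have h2 := Nat.le_of_dvd (by omega) h1
  have h3 : padicValNat p (k + 1) < p ^ padicValNat p (k + 1) := Nat.lt_pow_self hp.out.one_lt
  omega

/-- `p ^ v ∣ t` implies `p ^ v ∣ p ^ w * choose t k`, `w` the exponent of `p` in `k ≥ 1` -/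
theorem choose_dvd (p : ℕ) [hp : Fact p.Prime] {v t k : ℕ} (hv : p ^ v ∣ t) (hk : 1 ≤ k) :
    p ^ v ∣ p ^ padicValNat p k * t.choose k := by
  obtain ⟨u, hu⟩ : ∃ u, k = p ^ padicValNat p k * u := pow_padicValNat_dvd
  have hpu : ¬ p ∣ u := by
    intro h
    have h1 : p ^ (padicValNat p k + 1) ∣ k := by
      conv_rhs => rw [hu]
      rw [pow_succ]
      exact mul_dvd_mul_left _ h
    rw [padicValNat_dvd_iff_le (by omega)] at h1
    omega
  have hcop : Nat.Coprime (p ^ v) u := Nat.Coprime.pow_left _ ((Nat.Prime.coprime_iff_not_dvd hp.out).2 hpu)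
  obtain ⟨k', rfl⟩ : ∃ k', k = k' + 1 := ⟨k - 1, by omega⟩
  rcases Nat.eq_zero_or_pos t with h0 | h0
  · subst h0
    simp
  obtain ⟨t', rfl⟩ : ∃ t', t = t' + 1 := ⟨t - 1, by omega⟩
  have h2 : (t' + 1) * t'.choose k' = (t' + 1).choose (k' + 1) * (k' + 1) := Nat.add_one_mul_choose_eq t' k'
  have h3 : p ^ v ∣ (t' + 1).choose (k' + 1) * (k' + 1) := by
    rw [← h2]
    exact Dvd.dvd.mul_right hv _
  have h4 : (t' + 1).choose (k' + 1) * (k' + 1) = u * (p ^ padicValNat p (k' + 1) * (t' + 1).choose (k' + 1)) := by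
    calc (t' + 1).choose (k' + 1) * (k' + 1) = (t' + 1).choose (k' + 1) * (p ^ padicValNat p (k' + 1) * u) := by rw [← hu]
      _ = _ := by ring
  rw [h4] at h3
  exact hcop.dvd_of_dvd_mul_left h3

variable {A : Type*} [CommRing A]

/-- the powers `(1 + p ^ 2 D) ^ (p ^ j)` -/
theorem powA (p : ℕ) [hp : Fact p.Prime] (D : A) (j : ℕ) : ∃ a : ℕ → ℤ, a 0 = 1 ∧ (∀ k, (p : ℤ) ^ k ∣ a k) ∧
    (1 + (p : A) ^ 2 * D) ^ (p ^ j) = 1 + (p : A) ^ (j + 2) * ∑ k ∈ range (p ^ j), (a k : A) * D ^ (k + 1) := by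
  have hp0 : 0 < p := hp.out.pos
  have key : ∀ k, p ^ (j + 2) * p ^ k ∣ (p ^ j).choose (k + 1) * p ^ (2 * (k + 1)) := by
    intro k
    have h1 := choose_dvd p (v := j) (t := p ^ j) (k := k + 1) dvd_rfl (by omega)
    have h2 := padic_lt p k
    obtain ⟨c, hc⟩ : ∃ c, 2 * (k + 1) = padicValNat p (k + 1) + (k + 2) + c :=
      ⟨2 * (k + 1) - (padicValNat p (k + 1) + (k + 2)), by omega⟩
    rw [hc]
    have h3 : (p ^ j).choose (k + 1) * p ^ (padicValNat p (k + 1) + (k + 2) + c) =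
        (p ^ padicValNat p (k + 1) * (p ^ j).choose (k + 1)) * p ^ (k + 2) * p ^ c := by
      rw [pow_add, pow_add]; ring
    have h4 : p ^ (j + 2) * p ^ k = p ^ j * p ^ (k + 2) := by
      rw [← pow_add, ← pow_add]; congr 1; ring
    rw [h3, h4]
    exact Dvd.dvd.mul_right (mul_dvd_mul_right h1 _) _
  choose b hb using key
  refine ⟨fun k => ((p ^ k * b k : ℕ) : ℤ), ?_, ?_, ?_⟩
  · have h1 := hb 0
    rw [zero_add, Nat.choose_one_right, mul_one, pow_zero, mul_one] at h1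
    have h2 : p ^ j * p ^ 2 = p ^ (j + 2) := by rw [← pow_add]
    rw [h2] at h1
    have h3 : b 0 = 1 := by
      have h4 : 0 < p ^ (j + 2) := by positivity
      exact Nat.eq_of_mul_eq_mul_left h4 (by rw [mul_one]; exact h1.symm)
    simp [h3]
  · intro k
    push_cast
    exact Dvd.intro _ rfl
  · rw [add_comm (1 : A), add_pow, sum_range_succ', mul_sum]
    simp only [one_pow, mul_one, pow_zero, Nat.choose_zero_right, Nat.cast_one]
    rw [add_comm]
    congr 1
    apply sum_congr rfl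
    intro k _
    have h1 : ((p ^ j).choose (k + 1) : A) * (p : A) ^ (2 * (k + 1)) = (p : A) ^ (j + 2) * ((p : A) ^ k * (b k : A)) := by
      have := congrArg (Nat.cast : ℕ → A) (hb k)
      push_cast at this
      rw [this]; ring
    push_cast
    calc ((p : A) ^ 2 * D) ^ (k + 1) * ((p ^ j).choose (k + 1) : A) =
        (((p ^ j).choose (k + 1) : A) * (p : A) ^ (2 * (k + 1))) * D ^ (k + 1) := by rw [mul_pow, ← pow_mul]; ring
      _ = _ := by rw [h1]; ring

/-- the powers `(1 + p ^ a E) ^ t` -/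
theorem powB (p : ℕ) [hp : Fact p.Prime] (E : A) {a v t : ℕ} (ha : 2 ≤ a) (hv : p ^ v ∣ t) : ∃ Z : A,
    (1 + (p : A) ^ a * E) ^ t = 1 + t * ((p : A) ^ a * E) + (p : A) ^ (v + 2 * a - 1) * Z := by
  have hp0 : 0 < p := hp.out.pos
  have key : ∀ k, p ^ (v + 2 * a - 1) ∣ t.choose (k + 2) * p ^ (a * (k + 2)) := by
    intro k
    have h1 := choose_dvd p (v := v) (t := t) (k := k + 2) hv (by omega)
    have h2 : padicValNat p (k + 2) ≤ k + 1 := padic_lt p (k + 1)
    have h3 : padicValNat p (k + 2) + (2 * a - 1) ≤ a * (k + 2) := by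
      have h4 : 2 * k ≤ a * k := Nat.mul_le_mul_right _ ha
      have h5 : a * (k + 2) = a * k + 2 * a := by ring
      omega
    obtain ⟨c, hc⟩ : ∃ c, a * (k + 2) = padicValNat p (k + 2) + (2 * a - 1) + c :=
      ⟨a * (k + 2) - (padicValNat p (k + 2) + (2 * a - 1)), by omega⟩
    rw [hc]
    have h3 : t.choose (k + 2) * p ^ (padicValNat p (k + 2) + (2 * a - 1) + c) =
        (p ^ padicValNat p (k + 2) * t.choose (k + 2)) * p ^ (2 * a - 1) * p ^ c := by
      rw [pow_add, pow_add]; ring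
    have h4 : p ^ (v + 2 * a - 1) = p ^ v * p ^ (2 * a - 1) := by
      rw [← pow_add]; congr 1; omega
    rw [h3, h4]
    exact Dvd.dvd.mul_right (mul_dvd_mul_right h1 _) _
  choose b hb using key
  rcases t with _ | _ | t
  · exact ⟨0, by simp⟩
  · exact ⟨0, by simp⟩
  refine ⟨∑ k ∈ range (t + 1), (b k : A) * E ^ (k + 2), ?_⟩
  rw [add_comm (1 : A), add_pow, sum_range_succ', sum_range_succ', mul_sum]
  simp only [one_pow, mul_one, pow_zero, Nat.choose_zero_right, Nat.cast_one, zero_add, pow_one, Nat.choose_one_right]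
  have h0 : ∀ k ∈ range (t + 1), ((p : A) ^ a * E) ^ (k + 1 + 1) * ((t + 1 + 1).choose (k + 1 + 1) : A) =
      (p : A) ^ (v + 2 * a - 1) * ((b k : A) * E ^ (k + 2)) := by
    intro k _
    have h1 : ((t + 1 + 1).choose (k + 2) : A) * (p : A) ^ (a * (k + 2)) = (p : A) ^ (v + 2 * a - 1) * (b k : A) := by
      have := congrArg (Nat.cast : ℕ → A) (hb k)
      push_cast at this
      rw [this]
    calc ((p : A) ^ a * E) ^ (k + 1 + 1) * ((t + 1 + 1).choose (k + 1 + 1) : A) =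
        (((t + 1 + 1).choose (k + 2) : A) * (p : A) ^ (a * (k + 2))) * E ^ (k + 2) := by rw [mul_pow, ← pow_mul]; ring
      _ = _ := by rw [h1]; ring
  rw [sum_congr rfl h0]
  ring

end Pool.Agent.T2H58.LR
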