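import Pool.Agent.T2H58.LR.Alg

/-! Few points of a block at which a Newton series is small. -/

set_option autoImplicit false

namespace Pool.Agent.T2H58.LR

open Finset Polynomial

theorem val_fact_le (p : ℕ) [hp : Fact p.Prime] (k : ℕ) : padicValNat p k.factorial ≤ k := by
  have h := sub_one_mul_padicValNat_factorial (p := p) k
  have h1 : 1 ≤ p - 1 := by have := hp.out.two_le; omega
  nlinarith [Nat.sub_le k (p.digits k).sum, Nat.zero_le (padicValNat p k.factorial)]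

theorem block {p : ℕ} [hp : Fact p.Prime] (w : ℕ → ℤ) (K ν : ℕ) (hw : ¬ (p : ℤ) ^ (ν + 1) ∣ w K) {j Λ : ℕ}
    (hΛ : 1 ≤ Λ) (h : ℕ → ℤ)
    (hh : ∀ m, h m = ∑ k ∈ range (m + 1), (m.choose k : ℤ) * (p : ℤ) ^ (2 * k) * w k) (T : Finset ℕ)
    (hT : 2 * K + ν + 1 ≤ T.card) (hTΛ : ∀ m ∈ T, ∀ m' ∈ T, m ≤ m' + Λ) (hbad : ∀ m ∈ T, (p : ℤ) ^ (j + 1) ∣ h m) :
    (p : ℝ) ^ (j + 1) ≤ (p : ℝ) ^ (2 * K + ν) * (Λ : ℝ) ^ (2 * K + ν) := by
  classical
  have hp0 : (0 : ℝ) < p := by exact_mod_cast hp.out.pos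
  have hp1 : (1 : ℝ) < p := by exact_mod_cast hp.out.one_lt
  have hΛ1 : (1 : ℝ) ≤ Λ := by exact_mod_cast hΛ
  obtain ⟨μ, hμ⟩ : ∃ μ, μ = 2 * K + ν := ⟨_, rfl⟩
  rw [← hμ] at hT ⊢
  obtain ⟨β, hβ⟩ : ∃ β : ℕ → ℚ_[p], β = fun k => (p : ℚ_[p]) ^ (2 * k) * (w k : ℚ_[p]) / (k.factorial : ℚ_[p]) := ⟨_, rfl⟩
  have hfact : ∀ k : ℕ, (p : ℝ) ^ (-(k : ℤ)) ≤ ‖(k.factorial : ℚ_[p])‖ := by
    intro k
    rw [Padic.norm_eq_zpow_neg_valuation (by exact_mod_cast Nat.factorial_ne_zero k), Padic.valuation_natCast]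
    apply zpow_le_zpow_right₀ hp1.le
    have := val_fact_le p k
    omega
  have hfact1 : ∀ k : ℕ, ‖(k.factorial : ℚ_[p])‖ ≤ 1 := fun k => by
    have := Padic.norm_int_le_one (p := p) (k.factorial : ℤ)
    exact_mod_cast this
  have hfact0 : ∀ k : ℕ, 0 < ‖(k.factorial : ℚ_[p])‖ := fun k => by
    rw [norm_pos_iff]; exact_mod_cast Nat.factorial_ne_zero k
  have hnp : ∀ k : ℕ, ‖(p : ℚ_[p]) ^ k‖ = (p : ℝ) ^ (-(k : ℤ)) := fun k => Padic.norm_p_pow k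
  have hup : ∀ k, ‖β k‖ ≤ (p : ℝ) ^ (-(k : ℤ)) := by
    intro k
    rw [hβ]
    simp only
    rw [norm_div, norm_mul, hnp, div_le_iff₀ (hfact0 k)]
    have h1 : ‖(w k : ℚ_[p])‖ ≤ 1 := Padic.norm_int_le_one _
    calc (p : ℝ) ^ (-((2 * k : ℕ) : ℤ)) * ‖(w k : ℚ_[p])‖ ≤ (p : ℝ) ^ (-((2 * k : ℕ) : ℤ)) * 1 :=
          mul_le_mul_of_nonneg_left h1 (by positivity)
      _ = (p : ℝ) ^ (-(k : ℤ)) * (p : ℝ) ^ (-(k : ℤ)) := by
          rw [mul_one, ← zpow_add₀ hp0.ne']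
          congr 1
          push_cast
          ring
      _ ≤ (p : ℝ) ^ (-(k : ℤ)) * ‖(k.factorial : ℚ_[p])‖ := mul_le_mul_of_nonneg_left (hfact k) (by positivity)
  have hwK : (p : ℝ) ^ (-(ν : ℤ)) ≤ ‖(w K : ℚ_[p])‖ := by
    by_contra hcon
    push Not at hcon
    apply hw
    have h1 : ‖(w K : ℚ_[p])‖ ≤ (p : ℝ) ^ (-((ν + 1 : ℕ) : ℤ)) := by
      rw [Padic.norm_le_pow_iff_norm_lt_pow_add_one]
      have e : -((ν + 1 : ℕ) : ℤ) + 1 = -(ν : ℤ) := by push_cast; ring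
      rw [e]
      exact hcon
    rw [Padic.norm_int_le_pow_iff_dvd] at h1
    exact_mod_cast h1
  have hlow : (p : ℝ) ^ (-(μ : ℤ)) ≤ ‖β K‖ := by
    rw [hβ]
    simp only
    rw [norm_div, norm_mul, hnp, le_div_iff₀ (hfact0 K)]
    calc (p : ℝ) ^ (-(μ : ℤ)) * ‖(K.factorial : ℚ_[p])‖ ≤ (p : ℝ) ^ (-(μ : ℤ)) * 1 :=
          mul_le_mul_of_nonneg_left (hfact1 K) (by positivity)
      _ = (p : ℝ) ^ (-((2 * K : ℕ) : ℤ)) * (p : ℝ) ^ (-(ν : ℤ)) := by
          rw [mul_one, ← zpow_add₀ hp0.ne', hμ]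
          congr 1
          push_cast
          ring
      _ ≤ _ := mul_le_mul_of_nonneg_left hwK (by positivity)
  -- the last dominating index
  obtain ⟨S0, hS0, hS0max⟩ := Finset.exists_max_image (range (μ + 1)) (fun k => ‖β k‖) ⟨0, by simp⟩
  have hne : ((range (μ + 1)).filter (fun k => ‖β S0‖ ≤ ‖β k‖)).Nonempty := ⟨S0, by rw [mem_filter]; exact ⟨hS0, le_rfl⟩⟩
  set S := ((range (μ + 1)).filter (fun k => ‖β S0‖ ≤ ‖β k‖)).max' hne with hSdef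
  have hSmem := Finset.max'_mem _ hne
  rw [← hSdef, mem_filter, mem_range] at hSmem
  have hK : K < μ + 1 := by omega
  have hβS : (p : ℝ) ^ (-(μ : ℤ)) ≤ ‖β S‖ :=
    hlow.trans ((hS0max K (mem_range.2 hK)).trans hSmem.2)
  have hdom : ∀ k, S < k → ‖β k‖ < ‖β S‖ := by
    intro k hk
    rcases Nat.lt_or_ge k (μ + 1) with h1 | h1
    · by_contra hcon
      push Not at hcon
      have h2 : k ∈ (range (μ + 1)).filter (fun k => ‖β S0‖ ≤ ‖β k‖) := by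
        rw [mem_filter, mem_range]
        exact ⟨h1, hSmem.2.trans hcon⟩
      have := Finset.le_max' _ k h2
      omega
    · refine lt_of_le_of_lt (hup k) (lt_of_lt_of_le ?_ hβS)
      apply zpow_lt_zpow_right₀ hp1
      omega
  -- a subset
  obtain ⟨T1, hT1, hT1c⟩ := Finset.exists_subset_card_eq (show S + 1 ≤ T.card by omega)
  set T2 : Finset ℤ := T1.image (fun m : ℕ => (m : ℤ)) with hT2
  have hT2c : T2.card = S + 1 := by
    rw [hT2, card_image_of_injective _ Nat.cast_injective, hT1c]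
  set M : ℕ := S + ∑ m ∈ T, m with hM
  have hMm : ∀ m ∈ T, m ≤ M := by
    intro m hm
    have := Finset.single_le_sum (f := fun m : ℕ => m) (fun _ _ => Nat.zero_le _) hm
    omega
  obtain ⟨m, hm, hge⟩ := dd_norm β S M hdom (by omega) T2 hT2c (fun m => ((h m.toNat : ℤ) : ℚ_[p])) (by
    intro m hm
    rw [hT2, mem_image] at hm
    obtain ⟨m, hm, rfl⟩ := hm
    have hmM := hMm m (hT1 hm)
    simp only [Int.toNat_natCast]
    rw [hh m]
    push_cast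
    have h1 : ∑ k ∈ range (m + 1), (m.choose k : ℚ_[p]) * (p : ℚ_[p]) ^ (2 * k) * (w k : ℚ_[p]) =
        ∑ k ∈ range (M + 1), (m.choose k : ℚ_[p]) * (p : ℚ_[p]) ^ (2 * k) * (w k : ℚ_[p]) := by
      apply sum_subset
      · intro k hk
        rw [mem_range] at hk ⊢
        omega
      · intro k _ hk
        rw [mem_range] at hk
        rw [Nat.choose_eq_zero_of_lt (by omega)]
        simp
    rw [h1]
    apply sum_congr rfl
    intro k _
    rw [descPochhammer_eval_eq_descFactorial, Nat.descFactorial_eq_factorial_mul_choose, hβ]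
    simp only
    have h2 : (k.factorial : ℚ_[p]) ≠ 0 := by exact_mod_cast Nat.factorial_ne_zero k
    push_cast
    field_simp)
  rw [hT2, mem_image] at hm
  obtain ⟨m, hm1, rfl⟩ := hm
  simp only [Int.toNat_natCast] at hge
  have hhm : ‖((h m : ℤ) : ℚ_[p])‖ ≤ (p : ℝ) ^ (-((j + 1 : ℕ) : ℤ)) := by
    rw [Padic.norm_int_le_pow_iff_dvd]
    exact_mod_cast hbad m (hT1 hm1)
  have hprod : 1 / (Λ : ℝ) ^ μ ≤ ‖∏ i ∈ T2.erase (m : ℤ), (((m : ℤ) : ℚ_[p]) - (i : ℚ_[p]))‖ := by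
    have hc : (T2.erase (m : ℤ)).card = S := by
      rw [card_erase_of_mem (by rw [hT2]; exact mem_image_of_mem _ hm1), hT2c]
      rfl
    calc 1 / (Λ : ℝ) ^ μ ≤ 1 / (Λ : ℝ) ^ S := by
          apply one_div_le_one_div_of_le (by positivity)
          exact pow_le_pow_right₀ hΛ1 (by omega)
      _ = ∏ i ∈ T2.erase (m : ℤ), (1 / (Λ : ℝ)) := by
          rw [prod_const, hc, one_div_pow]
      _ ≤ ∏ i ∈ T2.erase (m : ℤ), ‖((m : ℤ) : ℚ_[p]) - (i : ℚ_[p])‖ := by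
          apply prod_le_prod
          · intro i _; positivity
          · intro i hi
            rw [mem_erase, hT2, mem_image] at hi
            obtain ⟨hne, i, hi, rfl⟩ := hi
            have h1 : ((m : ℤ) : ℚ_[p]) - ((i : ℤ) : ℚ_[p]) = (((m : ℤ) - (i : ℤ) : ℤ) : ℚ_[p]) := by push_cast; ring
            rw [h1]
            apply norm_int_ge
            · intro h0
              apply hne
              omega
            · have h2 := hTΛ m (hT1 hm1) i (hT1 hi)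
              have h3 := hTΛ i (hT1 hi) m (hT1 hm1)
              have h2' : (m : ℝ) ≤ i + Λ := by exact_mod_cast h2
              have h3' : (i : ℝ) ≤ m + Λ := by exact_mod_cast h3
              push_cast
              rw [abs_le]
              constructor <;> linarith
      _ = _ := by rw [norm_prod]
  have hpos : 0 < ‖∏ i ∈ T2.erase (m : ℤ), (((m : ℤ) : ℚ_[p]) - (i : ℚ_[p]))‖ :=
    lt_of_lt_of_le (by positivity) hprod
  rw [norm_div, le_div_iff₀ hpos] at hge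
  have h5 : (p : ℝ) ^ (-(μ : ℤ)) * (1 / (Λ : ℝ) ^ μ) ≤ (p : ℝ) ^ (-((j + 1 : ℕ) : ℤ)) := by
    calc (p : ℝ) ^ (-(μ : ℤ)) * (1 / (Λ : ℝ) ^ μ) ≤ ‖β S‖ * ‖∏ i ∈ T2.erase (m : ℤ), (((m : ℤ) : ℚ_[p]) - (i : ℚ_[p]))‖ := by
          apply mul_le_mul hβS hprod (by positivity) (norm_nonneg _)
      _ ≤ _ := hge.trans hhm
  rw [zpow_neg, zpow_neg, zpow_natCast, zpow_natCast] at h5
  have hA : (0 : ℝ) < (p : ℝ) ^ μ := by positivity
  have hB : (0 : ℝ) < (Λ : ℝ) ^ μ := by positivity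
  have hC : (0 : ℝ) < (p : ℝ) ^ (j + 1) := by positivity
  have h6 : ((p : ℝ) ^ μ)⁻¹ * (1 / (Λ : ℝ) ^ μ) = ((p : ℝ) ^ μ * (Λ : ℝ) ^ μ)⁻¹ := by
    rw [mul_inv, one_div]
  rw [h6] at h5
  exact (inv_le_inv₀ (by positivity) hC).1 h5

end Pool.Agent.T2H58.LR
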