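import Mathlib

/-! Divided differences of integer polynomials, and the size of a `p`-adic Newton series at few points. -/

set_option autoImplicit false

namespace Pool.Agent.T2H58.LR

open Finset Polynomial

theorem dd_coeff {F : Type*} [Field F] [CharZero F] (T : Finset ℤ) {S : ℕ} (hT : T.card = S + 1)
    (P : ℤ[X]) :
    ∃ z : ℤ, (∑ i ∈ T, ((P.eval i : ℤ) : F) / ∏ j ∈ T.erase i, ((i : F) - (j : F))) = z ∧
      (P.natDegree < S → z = 0) ∧ (P.Monic → P.natDegree = S → z = 1) := by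
  classical
  set Q : ℤ[X] := ∏ i ∈ T, (X - C i) with hQ
  have hQm : Q.Monic := monic_prod_of_monic _ _ fun i _ => monic_X_sub_C i
  have hQd : Q.natDegree = S + 1 := by
    rw [hQ, natDegree_prod_of_monic _ _ fun i _ => monic_X_sub_C i,
      sum_congr rfl fun i _ => natDegree_X_sub_C i, sum_const, hT, smul_eq_mul, mul_one]
  set R := P %ₘ Q with hR
  have hQ0 : ∀ i ∈ T, Q.eval i = 0 := by
    intro i hi
    rw [hQ, eval_prod]
    exact prod_eq_zero hi (by simp)
  have hRd : R.degree < (S + 1 : ℕ) := by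
    have := degree_modByMonic_lt P hQm
    rwa [degree_eq_natDegree hQm.ne_zero, hQd] at this
  have hinj : Set.InjOn (fun i : ℤ => (i : F)) T := fun a _ b _ h => Int.cast_injective h
  have hRF : (R.map (Int.castRingHom F)).degree < (T.card : ℕ) := by
    rw [hT]; exact lt_of_le_of_lt degree_map_le hRd
  have key := Lagrange.coeff_eq_sum (s := T) (v := fun i : ℤ => (i : F)) hinj hRF
  rw [hT, Nat.add_sub_cancel, coeff_map] at key
  refine ⟨R.coeff S, ?_, ?_, ?_⟩
  · rw [eq_intCast] at key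
    rw [key]
    apply sum_congr rfl
    intro i hi
    congr 1
    have h1 : (R.map (Int.castRingHom F)).eval (i : F) = ((R.eval i : ℤ) : F) := by
      rw [eval_map]
      have := Polynomial.hom_eval₂ R (RingHom.id ℤ) (Int.castRingHom F) i
      simp only [eval₂_id, RingHomCompTriple.comp_eq, eq_intCast] at this
      rw [this]
    have h2 : R.eval i = P.eval i := by
      have h3 := modByMonic_add_div P Q
      have h4 := congrArg (eval i) h3
      rw [eval_add, eval_mul, hQ0 i hi, zero_mul, add_zero] at h4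
      exact h4
    rw [h1, h2]
  · intro h
    have h1 : R = P := (modByMonic_eq_self_iff hQm).2 (by
      rw [degree_eq_natDegree hQm.ne_zero, hQd]
      exact lt_of_le_of_lt degree_le_natDegree (by exact_mod_cast by omega))
    rw [h1]
    exact coeff_eq_zero_of_natDegree_lt h
  · intro hm h
    have h1 : R = P := (modByMonic_eq_self_iff hQm).2 (by
      rw [degree_eq_natDegree hQm.ne_zero, hQd]
      exact lt_of_le_of_lt degree_le_natDegree (by exact_mod_cast by omega))
    rw [h1, ← h]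
    exact hm.coeff_natDegree

theorem norm_sum_lt {p : ℕ} [Fact p.Prime] {ι : Type*} (s : Finset ι) (f : ι → ℚ_[p]) {r : ℝ}
    (hr : 0 < r) (h : ∀ i ∈ s, ‖f i‖ < r) : ‖∑ i ∈ s, f i‖ < r := by
  classical
  induction s using Finset.induction_on with
  | empty => simpa using hr
  | insert a s ha ih =>
    rw [sum_insert ha]
    refine lt_of_le_of_lt (Padic.nonarchimedean _ _) ?_
    exact max_lt (h a (mem_insert_self _ _)) (ih fun i hi => h i (mem_insert_of_mem hi))

/-- If the coefficient of index `S` of a Newton series dominates the later ones, the series is not small at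
all of `S + 1` points, relative to their distances. -/
theorem dd_norm {p : ℕ} [Fact p.Prime] (β : ℕ → ℚ_[p]) (S M : ℕ) (hS : ∀ k, S < k → ‖β k‖ < ‖β S‖)
    (hSM : S ≤ M) (T : Finset ℤ) (hT : T.card = S + 1) (h : ℤ → ℚ_[p])
    (hh : ∀ m ∈ T, h m = ∑ k ∈ range (M + 1), β k * (((descPochhammer ℤ k).eval m : ℤ) : ℚ_[p])) :
    ∃ m ∈ T, ‖β S‖ ≤ ‖h m / ∏ j ∈ T.erase m, ((m : ℚ_[p]) - (j : ℚ_[p]))‖ := by
  classical
  by_contra hcon
  push Not at hcon
  have hβ : 0 < ‖β S‖ := lt_of_le_of_lt (norm_nonneg _) (hS (S + 1) (by omega))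
  have h1 : ‖∑ m ∈ T, h m / ∏ j ∈ T.erase m, ((m : ℚ_[p]) - (j : ℚ_[p]))‖ < ‖β S‖ :=
    norm_sum_lt _ _ hβ hcon
  choose z hz1 hz2 hz3 using fun k : ℕ => dd_coeff (F := ℚ_[p]) T hT (descPochhammer ℤ k)
  have h2 : ∑ m ∈ T, h m / ∏ j ∈ T.erase m, ((m : ℚ_[p]) - (j : ℚ_[p])) =
      ∑ k ∈ range (M + 1), β k * (z k : ℚ_[p]) := by
    have h3 : ∀ m ∈ T, h m / ∏ j ∈ T.erase m, ((m : ℚ_[p]) - (j : ℚ_[p])) =
        ∑ k ∈ range (M + 1), β k * ((((descPochhammer ℤ k).eval m : ℤ) : ℚ_[p]) /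
          ∏ j ∈ T.erase m, ((m : ℚ_[p]) - (j : ℚ_[p]))) := by
      intro m hm
      rw [hh m hm, sum_div]
      apply sum_congr rfl
      intro k _
      rw [mul_div_assoc]
    rw [sum_congr rfl h3, sum_comm]
    apply sum_congr rfl
    intro k _
    rw [← mul_sum, hz1]
  have hzS : z S = 1 := hz3 S (monic_descPochhammer ℤ S) (descPochhammer_natDegree ℤ S)
  have h4 : ∑ k ∈ range (M + 1), β k * (z k : ℚ_[p]) =
      β S + ∑ k ∈ (range (M + 1)).erase S, β k * (z k : ℚ_[p]) := by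
    rw [← add_sum_erase _ _ (mem_range.2 (by omega : S < M + 1)), hzS]
    simp
  have h5 : ‖∑ k ∈ (range (M + 1)).erase S, β k * (z k : ℚ_[p])‖ < ‖β S‖ := by
    apply norm_sum_lt _ _ hβ
    intro k hk
    rw [mem_erase] at hk
    rcases lt_or_gt_of_ne hk.1 with h6 | h6
    · rw [hz2 k (by rw [descPochhammer_natDegree]; exact h6)]
      simpa using hβ
    · rw [norm_mul]
      calc ‖β k‖ * ‖(z k : ℚ_[p])‖ ≤ ‖β k‖ * 1 :=
            mul_le_mul_of_nonneg_left (Padic.norm_int_le_one _) (norm_nonneg _)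
        _ = ‖β k‖ := mul_one _
        _ < ‖β S‖ := hS k h6
  rw [h2, h4] at h1
  have h6 : β S = (β S + ∑ k ∈ (range (M + 1)).erase S, β k * (z k : ℚ_[p])) +
      -(∑ k ∈ (range (M + 1)).erase S, β k * (z k : ℚ_[p])) := by ring
  have h7 : ‖β S‖ < ‖β S‖ := by
    conv_lhs => rw [h6]
    refine lt_of_le_of_lt (Padic.nonarchimedean _ _) ?_
    rw [norm_neg]
    exact max_lt h1 h5
  exact lt_irrefl _ h7

/-- the `p`-adic norm of a nonzero integer is at least `1 / |a|` -/
theorem norm_int_ge {p : ℕ} [hp : Fact p.Prime] {a : ℤ} (ha : a ≠ 0) {L : ℝ} (hL : |(a : ℝ)| ≤ L) :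
    1 / L ≤ ‖(a : ℚ_[p])‖ := by
  have ha' : (0 : ℝ) < |(a : ℝ)| := by positivity
  have hL0 : 0 < L := lt_of_lt_of_le ha' hL
  have h1 : ‖(a : ℚ_[p])‖ = (p : ℝ) ^ (-(padicValInt p a : ℤ)) := by
    rw [Padic.norm_eq_zpow_neg_valuation (by exact_mod_cast ha)]
    simp
  have hp0 : (0 : ℝ) < p := by exact_mod_cast hp.out.pos
  rw [h1, zpow_neg, zpow_natCast, one_div]
  apply inv_anti₀ (by positivity)
  refine le_trans ?_ hL
  have h2 : (p : ℤ) ^ padicValInt p a ∣ a := padicValInt_dvd a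
  have h3 := Int.le_of_dvd (abs_pos.2 ha) ((dvd_abs _ _).2 h2)
  have h4 : (((p : ℤ) ^ padicValInt p a : ℤ) : ℝ) ≤ ((|a| : ℤ) : ℝ) := by exact_mod_cast h3
  push_cast at h4
  exact h4

end Pool.Agent.T2H58.LR
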