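import Pool.Agent.T2H58.LR.Block

/-! The local properties of a sequence `n ↦ ψ (x ^ n)` at one prime. -/

set_option autoImplicit false

namespace Pool.Agent.T2H58.LR

open Finset

variable {A : Type*} [CommRing A]

theorem psi_int (ψ : A →+ ℤ) (c : ℤ) (y : A) : ψ ((c : A) * y) = c * ψ y := by
  rw [← zsmul_eq_mul, map_zsmul, smul_eq_mul]

theorem psi_nat (ψ : A →+ ℤ) (c : ℕ) (y : A) : ψ ((c : A) * y) = c * ψ y := by
  have := psi_int ψ (c : ℤ) y
  rwa [Int.cast_natCast] at this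

theorem psi_pow (ψ : A →+ ℤ) (p k : ℕ) (y : A) : ψ ((p : A) ^ k * y) = (p : ℤ) ^ k * ψ y := by
  have := psi_nat ψ (p ^ k) y
  push_cast at this
  exact this

theorem rigid_loc {p : ℕ} [hp : Fact p.Prime] (ψ : A →+ ℤ) (x D E : A) {L j : ℕ} (hx : x ^ L = 1 + (p : A) ^ 2 * D)
    (hE : (1 + (p : A) ^ 2 * D) ^ (p ^ j) = 1 + (p : A) ^ (j + 2) * E) {n t N : ℕ}
    (hn : ¬ (p : ℤ) ^ (j + 1) ∣ ψ (x ^ n * E))
    (hN : (p : ℤ) ^ N ∣ ψ (x ^ (n + L * p ^ j * t)) - ψ (x ^ n)) : (p : ℤ) ^ N ∣ (t : ℤ) * (p : ℤ) ^ (2 * j + 2) := by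
  rcases Nat.eq_zero_or_pos t with ht | ht
  · subst ht; simp
  have hp0 : (p : ℤ) ≠ 0 := by exact_mod_cast hp.out.ne_zero
  obtain ⟨v, hv⟩ : ∃ v, v = padicValNat p t := ⟨_, rfl⟩
  obtain ⟨u, hu⟩ : ∃ u, t = p ^ v * u := by rw [hv]; exact pow_padicValNat_dvd
  have hpu : ¬ p ∣ u := by
    intro h
    have h1 : p ^ (v + 1) ∣ t := by
      conv_rhs => rw [hu]
      rw [pow_succ]
      exact mul_dvd_mul_left _ h
    rw [padicValNat_dvd_iff_le (by omega)] at h1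
    omega
  rcases Nat.lt_or_ge (v + 2 * j + 2) N with hlt | hge
  swap
  · refine (pow_dvd_pow _ hge).trans ?_
    have h1 : (p : ℤ) ^ (v + 2 * j + 2) = (p : ℤ) ^ v * (p : ℤ) ^ (2 * j + 2) := by rw [← pow_add]; congr 1
    rw [h1]
    apply mul_dvd_mul_right
    have : (p : ℤ) ^ v ∣ ((t : ℕ) : ℤ) := by
      rw [hu]; push_cast; exact Dvd.intro _ rfl
    exact this
  exfalso
  obtain ⟨Z, hZ⟩ := powB p E (a := j + 2) (v := v) (t := t) (by omega) (Dvd.intro _ hu.symm)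
  have h1 : x ^ (n + L * p ^ j * t) = x ^ n * (1 + (p : A) ^ (j + 2) * E) ^ t := by
    rw [pow_add, pow_mul, pow_mul, hx, hE]
  have h2 : ψ (x ^ (n + L * p ^ j * t)) = ψ (x ^ n) + (t : ℤ) * ((p : ℤ) ^ (j + 2) * ψ (x ^ n * E)) +
      (p : ℤ) ^ (v + 2 * (j + 2) - 1) * ψ (x ^ n * Z) := by
    rw [h1, hZ]
    have e : x ^ n * (1 + (t : A) * ((p : A) ^ (j + 2) * E) + (p : A) ^ (v + 2 * (j + 2) - 1) * Z) =
        x ^ n + (t : A) * ((p : A) ^ (j + 2) * (x ^ n * E)) + (p : A) ^ (v + 2 * (j + 2) - 1) * (x ^ n * Z) := by ring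
    rw [e, map_add, map_add, psi_nat, psi_pow, psi_pow]
  have h3 : (p : ℤ) ^ (v + 2 * j + 3) ∣ (t : ℤ) * ((p : ℤ) ^ (j + 2) * ψ (x ^ n * E)) := by
    have h4 : (p : ℤ) ^ (v + 2 * j + 3) ∣ ψ (x ^ (n + L * p ^ j * t)) - ψ (x ^ n) :=
      (pow_dvd_pow _ (by omega)).trans hN
    rw [h2] at h4
    have h5 : (p : ℤ) ^ (v + 2 * j + 3) ∣ (p : ℤ) ^ (v + 2 * (j + 2) - 1) * ψ (x ^ n * Z) :=
      Dvd.dvd.mul_right (pow_dvd_pow _ (by omega)) _
    have h6 := dvd_sub h4 h5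
    have e : ψ (x ^ n) + (t : ℤ) * ((p : ℤ) ^ (j + 2) * ψ (x ^ n * E)) +
      (p : ℤ) ^ (v + 2 * (j + 2) - 1) * ψ (x ^ n * Z) - ψ (x ^ n) - (p : ℤ) ^ (v + 2 * (j + 2) - 1) * ψ (x ^ n * Z) =
      (t : ℤ) * ((p : ℤ) ^ (j + 2) * ψ (x ^ n * E)) := by ring
    rwa [e] at h6
  have h4 : (t : ℤ) * ((p : ℤ) ^ (j + 2) * ψ (x ^ n * E)) = (p : ℤ) ^ (v + j + 2) * ((u : ℤ) * ψ (x ^ n * E)) := by
    have : (t : ℤ) = (p : ℤ) ^ v * u := by rw [hu]; push_cast; rfl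
    rw [this]
    have e : (p : ℤ) ^ (v + j + 2) = (p : ℤ) ^ v * (p : ℤ) ^ (j + 2) := by rw [← pow_add]; congr 1
    rw [e]; ring
  have h5 : (p : ℤ) ^ (v + 2 * j + 3) = (p : ℤ) ^ (v + j + 2) * (p : ℤ) ^ (j + 1) := by
    rw [← pow_add]; congr 1; ring
  rw [h4, h5] at h3
  have h6 := (mul_dvd_mul_iff_left (pow_ne_zero _ hp0)).1 h3
  have h7 : IsCoprime ((p : ℤ) ^ (j + 1)) (u : ℤ) := by
    apply IsCoprime.pow_left
    rw [Nat.isCoprime_iff_coprime]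
    exact (Nat.Prime.coprime_iff_not_dvd hp.out).2 hpu
  exact hn (h7.dvd_of_dvd_mul_left h6)

theorem newton (p : ℕ) (ψ : A →+ ℤ) (x D y : A) {L : ℕ} (hx : x ^ L = 1 + (p : A) ^ 2 * D) (s m : ℕ) :
    ψ (x ^ (s + L * m) * y) = ∑ k ∈ range (m + 1), (m.choose k : ℤ) * (p : ℤ) ^ (2 * k) * ψ (x ^ s * D ^ k * y) := by
  have h1 : x ^ (s + L * m) * y = ∑ k ∈ range (m + 1), ((m.choose k : ℕ) : A) * ((p : A) ^ (2 * k) * (x ^ s * D ^ k * y)) := by
    rw [pow_add, pow_mul, hx, add_comm (1 : A), add_pow, mul_sum, sum_mul]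
    apply sum_congr rfl
    intro k _
    rw [mul_pow, ← pow_mul, one_pow]
    ring
  rw [h1, map_sum]
  apply sum_congr rfl
  intro k _
  rw [psi_nat, psi_pow]
  ring

theorem min_val (p : ℕ) [hp : Fact p.Prime] (g : ℕ → ℤ) (hg : ∃ k, g k ≠ 0) :
    ∃ K ν : ℕ, ¬ (p : ℤ) ^ (ν + 1) ∣ g K ∧ ∀ k, (p : ℤ) ^ ν ∣ g k := by
  classical
  have hex : ∃ v : ℕ, ∃ k, ¬ (p : ℤ) ^ (v + 1) ∣ g k := by
    obtain ⟨k, hk⟩ := hg
    refine ⟨(g k).natAbs, k, fun h => ?_⟩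
    have h1 := Int.natAbs_dvd_natAbs.2 h
    rw [Int.natAbs_pow, Int.natAbs_natCast] at h1
    have h2 := Nat.le_of_dvd (Int.natAbs_pos.2 hk) h1
    have h3 : (g k).natAbs + 1 < p ^ ((g k).natAbs + 1) := Nat.lt_pow_self hp.out.one_lt
    omega
  obtain ⟨K, hK⟩ := Nat.find_spec hex
  refine ⟨K, Nat.find hex, hK, fun k => ?_⟩
  rcases Nat.eq_zero_or_pos (Nat.find hex) with h0 | h0
  · rw [h0]; simp
  · have h1 := Nat.find_min hex (m := Nat.find hex - 1) (by omega)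
    push Not at h1
    have h2 := h1 k
    rwa [Nat.sub_add_cancel h0] at h2

theorem loc {p : ℕ} [hp : Fact p.Prime] (ψ : A →+ ℤ) (x D : A) {L : ℕ} (hL : 1 ≤ L) (hx : x ^ L = 1 + (p : A) ^ 2 * D)
    (hnc : ∀ s, ∃ m, ψ (x ^ (s + L * m)) ≠ ψ (x ^ s)) :
    ∃ c : ℕ, 1 ≤ c ∧ ∀ j : ℕ, ∃ B : ℕ → Prop,
      (∀ (X Q : ℕ) (F : Finset ℕ), F ⊆ Ioc X (X + Q) → (∀ n ∈ F, B n) → F.card ≤ c * (Q / 2 ^ (j / c) + 1)) ∧
      (∀ n, ¬ B n → ∀ t N : ℕ, (p : ℤ) ^ N ∣ ψ (x ^ (n + L * p ^ j * t)) - ψ (x ^ n) →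
        (p : ℤ) ^ N ∣ (t : ℤ) * (p : ℤ) ^ (2 * j + 2)) := by
  classical
  have hgs : ∀ s, ∃ k, ψ (x ^ s * D ^ (k + 1)) ≠ 0 := by
    intro s
    by_contra hcon
    push Not at hcon
    obtain ⟨m, hm⟩ := hnc s
    apply hm
    have h1 := newton p ψ x D 1 hx s m
    rw [mul_one] at h1
    rw [h1, sum_range_succ']
    simp only [Nat.choose_zero_right, mul_zero, pow_zero, mul_one, Nat.cast_one, one_mul]
    rw [sum_eq_zero, zero_add]
    intro k _
    rw [hcon k, mul_zero]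
  choose K ν hK hν using fun s => min_val p (fun k => ψ (x ^ s * D ^ (k + 1))) (hgs s)
  obtain ⟨μ, hμ⟩ : ∃ μ, μ = ∑ s ∈ range L, (2 * K s + ν s) := ⟨_, rfl⟩
  have hμs : ∀ s, s < L → 2 * K s + ν s ≤ μ := by
    intro s hs
    rw [hμ]
    exact Finset.single_le_sum (f := fun s => 2 * K s + ν s) (fun _ _ => Nat.zero_le _) (mem_range.2 hs)
  obtain ⟨c, hc⟩ : ∃ c, c = 2 * μ + 1 + L * μ := ⟨_, rfl⟩
  have hc1 : 2 * μ + 1 ≤ c := by omega
  have hc2 : L * μ ≤ c := by omega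
  refine ⟨c, by omega, fun j => ?_⟩
  obtain ⟨a, ha0, hak, hE⟩ := powA p D j
  obtain ⟨E, hEdef⟩ : ∃ E : A, E = ∑ k ∈ range (p ^ j), (a k : A) * D ^ (k + 1) := ⟨_, rfl⟩
  rw [← hEdef] at hE
  refine ⟨fun n => (p : ℤ) ^ (j + 1) ∣ ψ (x ^ n * E), ?_, fun n hn t N hN => rigid_loc ψ x D E hx hE hn hN⟩
  intro X Q F hF hbad
  obtain ⟨Λ, hΛ⟩ : ∃ Λ, Λ = 2 ^ (j / c) := ⟨_, rfl⟩
  rw [← hΛ]
  have hΛ1 : 1 ≤ Λ := by rw [hΛ]; exact Nat.one_le_two_pow
  rcases Nat.lt_or_ge j c with hjc | hjc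
  · rw [Nat.div_eq_of_lt hjc, pow_zero] at hΛ
    rw [hΛ, Nat.div_one]
    have h1 := card_le_card hF
    rw [Nat.card_Ioc] at h1
    have h2 : 1 * (Q + 1) ≤ c * (Q + 1) := Nat.mul_le_mul_right _ (by omega)
    omega
  -- fibres
  have hfib : ∀ b ∈ range (Q / Λ + 1), (F.filter (fun n => (n - X - 1) / Λ = b)).card ≤ L * μ := by
    intro b _
    by_contra hcon
    push Not at hcon
    obtain ⟨G, hG⟩ : ∃ G, G = F.filter (fun n => (n - X - 1) / Λ = b) := ⟨_, rfl⟩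
    rw [← hG] at hcon
    have hmaps : ∀ n ∈ G, n % L ∈ range L := fun n _ => mem_range.2 (Nat.mod_lt _ (by omega))
    obtain ⟨s, hs, hsc⟩ := Finset.exists_lt_card_fiber_of_mul_lt_card_of_maps_to hmaps (by rw [card_range]; exact hcon)
    rw [mem_range] at hs
    have hclose : ∀ n ∈ G, ∀ n' ∈ G, n ≤ n' + Λ := by
      intro n hn n' hn'
      rw [hG, mem_filter] at hn hn'
      have h1 := mem_Ioc.1 (hF hn.1)
      have h2 := mem_Ioc.1 (hF hn'.1)
      have h3 := Nat.div_add_mod (n - X - 1) Λ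
      have h4 := Nat.div_add_mod (n' - X - 1) Λ
      have h5 := Nat.mod_lt (n - X - 1) (show 0 < Λ by omega)
      rw [hn.2] at h3
      rw [hn'.2] at h4
      generalize Λ * b = q at h3 h4
      omega
    have hinj : Set.InjOn (fun n => n / L) (G.filter (fun n => n % L = s)) := by
      intro n hn n' hn' h
      rw [mem_coe, mem_filter] at hn hn'
      have h1 := Nat.div_add_mod n L
      have h2 := Nat.div_add_mod n' L
      simp only at h
      rw [h, hn.2] at h1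
      rw [hn'.2] at h2
      omega
    have hbl := block (p := p) (fun k => ψ (x ^ s * D ^ k * E)) (K s) (ν s) (j := j) (Λ := Λ) (by
      intro hdv
      apply hK s
      have h1 : x ^ s * D ^ K s * E = ∑ k ∈ range (p ^ j), (a k : A) * (x ^ s * D ^ (K s + k + 1)) := by
        rw [hEdef, mul_sum]
        apply sum_congr rfl
        intro k _
        rw [add_assoc, pow_add]
        ring
      obtain ⟨P, hP⟩ : ∃ P, p ^ j = P + 1 := ⟨p ^ j - 1, by
        have : 0 < p ^ j := Nat.pow_pos hp.out.pos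
        omega⟩
      rw [h1, map_sum, hP, sum_range_succ'] at hdv
      simp only [psi_int, ha0, one_mul, add_zero] at hdv
      have h2 : (p : ℤ) ^ (ν s + 1) ∣ ∑ k ∈ range P, a (k + 1) * ψ (x ^ s * D ^ (K s + (k + 1) + 1)) := by
        apply dvd_sum
        intro k _
        have h3 := hν s (K s + (k + 1))
        have h4 : (p : ℤ) ∣ a (k + 1) := (dvd_pow_self _ (by omega)).trans (hak (k + 1))
        rw [pow_succ, mul_comm]
        exact mul_dvd_mul h4 h3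
      have h3 := dvd_sub hdv h2
      rwa [add_sub_cancel_left] at h3) hΛ1 (fun m => ψ (x ^ (s + L * m) * E)) (fun m => newton p ψ x D E hx s m)
      ((G.filter (fun n => n % L = s)).image (fun n => n / L)) (by
        rw [card_image_of_injOn hinj]
        have := hμs s hs
        omega) (by
        intro m hm m' hm'
        rw [mem_image] at hm hm'
        obtain ⟨n, hn, rfl⟩ := hm
        obtain ⟨n', hn', rfl⟩ := hm'
        rw [mem_filter] at hn hn'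
        have h1 := hclose n hn.1 n' hn'.1
        calc n / L ≤ (n' + Λ) / L := Nat.div_le_div_right h1
          _ ≤ (n' + L * Λ) / L := Nat.div_le_div_right (by nlinarith)
          _ = n' / L + Λ := Nat.add_mul_div_left _ _ (by omega)) (by
        intro m hm
        rw [mem_image] at hm
        obtain ⟨n, hn, rfl⟩ := hm
        rw [mem_filter] at hn
        have h1 := Nat.div_add_mod n L
        have h2 : s + L * (n / L) = n := by rw [← hn.2]; omega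
        rw [h2]
        rw [hG, mem_filter] at hn
        exact hbad n hn.1.1)
    -- contradiction
    have hp1 : (1 : ℝ) < p := by exact_mod_cast hp.out.one_lt
    have hms := hμs s hs
    have h1 : (Λ : ℝ) ^ (2 * K s + ν s) ≤ (p : ℝ) ^ (j / c * μ) := by
      calc (Λ : ℝ) ^ (2 * K s + ν s) ≤ (Λ : ℝ) ^ μ := pow_le_pow_right₀ (by exact_mod_cast hΛ1) hms
        _ = (2 : ℝ) ^ (j / c * μ) := by rw [hΛ]; push_cast; rw [← pow_mul]
        _ ≤ (p : ℝ) ^ (j / c * μ) := pow_le_pow_left₀ (by norm_num) (by exact_mod_cast hp.out.two_le) _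
    have h2 : (p : ℝ) ^ (2 * K s + ν s) ≤ (p : ℝ) ^ μ := pow_le_pow_right₀ hp1.le hms
    have h3 : (p : ℝ) ^ (j + 1) ≤ (p : ℝ) ^ (μ + j / c * μ) := by
      rw [pow_add (p : ℝ) μ]
      exact hbl.trans (mul_le_mul h2 h1 (by positivity) (by positivity))
    have h4 : j + 1 ≤ μ + j / c * μ := (pow_le_pow_iff_right₀ hp1).1 h3
    have h5 : j / c * c ≤ j := Nat.div_mul_le_self j c
    have h6 : j / c * (2 * μ) ≤ j / c * c := Nat.mul_le_mul_left _ (by omega)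
    have h7 : j / c * (2 * μ) = 2 * (j / c * μ) := by ring
    omega
  have hcard := Finset.card_le_mul_card_image_of_maps_to (s := F) (t := range (Q / Λ + 1))
    (f := fun n => (n - X - 1) / Λ) (by
      intro n hn
      have h1 := mem_Ioc.1 (hF hn)
      rw [mem_range]
      have h2 : (n - X - 1) / Λ ≤ Q / Λ := Nat.div_le_div_right (by omega)
      omega) (L * μ) hfib
  rw [card_range] at hcard
  exact hcard.trans (Nat.mul_le_mul_right _ hc2)

end Pool.Agent.T2H58.LR
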