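import Pool.Agent.T2H58.LR.Loc
import Pool.Agent.H853R2.Skolem.Ord
import Pool.Agent.Y927.GP.C

/-! The spread of the values of a linear recurrence modulo the powers of `d`. -/

set_option autoImplicit false

namespace Pool.Agent.T2H58.LR

open Finset Polynomial
open Pool.Agent.H853R2.Skolem (phi Ann ann_iff lift_dvd exists_period phi_X_pow)

/-- The local property at `p`. -/
def LocP (p : ℕ) (f : ℕ → ℤ) : Prop := ∃ L c : ℕ, 1 ≤ L ∧ 1 ≤ c ∧ ∀ j : ℕ, ∃ B : ℕ → Prop,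
  (∀ (X Q : ℕ) (F : Finset ℕ), F ⊆ Ioc X (X + Q) → (∀ n ∈ F, B n) → F.card ≤ c * (Q / 2 ^ (j / c) + 1)) ∧
  (∀ n, ¬ B n → ∀ t N : ℕ, (p : ℤ) ^ N ∣ f (n + L * p ^ j * t) - f n → (p : ℤ) ^ N ∣ (t : ℤ) * (p : ℤ) ^ (2 * j + 2))

/-- The spread of the values modulo the powers of `d`. -/
def Spr (d : ℕ) (f : ℕ → ℤ) : Prop := ∃ c : ℕ, 1 ≤ c ∧ ∀ j : ℕ, ∃ B : ℕ → Prop,
  (∀ (X Q : ℕ) (F : Finset ℕ), F ⊆ Ioc X (X + Q) → (∀ n ∈ F, B n) → F.card ≤ c * (Q / 2 ^ (j / c) + 1)) ∧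
  (∀ (N X Q : ℕ) (F : Finset ℕ) (v : ℤ), Q ≤ d ^ (N + 1) → F ⊆ Ioc X (X + Q) → (∀ n ∈ F, ¬ B n ∧ f n % (d : ℤ) ^ N = v) →
    F.card ≤ c * d ^ (2 * j))

theorem psi_exists (P : ℤ[X]) (u : ℕ → ℤ) (h : Ann P u) : ∃ ψ : (ℤ[X] ⧸ Ideal.span {P}) →+ ℤ,
    ∀ Q, ψ (Ideal.Quotient.mk _ Q) = phi u Q := by
  have hs : Function.Surjective (Ideal.Quotient.mk (Ideal.span {P})) := Ideal.Quotient.mk_surjective
  have hz : ∀ Q, Ideal.Quotient.mk (Ideal.span {P}) Q = 0 → phi u Q = 0 := by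
    intro Q hQ
    rw [Ideal.Quotient.eq_zero_iff_mem, Ideal.mem_span_singleton] at hQ
    obtain ⟨E, rfl⟩ := hQ
    exact h E
  have hz2 : ∀ Q R, Ideal.Quotient.mk (Ideal.span {P}) Q = Ideal.Quotient.mk (Ideal.span {P}) R → phi u Q = phi u R := by
    intro Q R hQR
    have h1 := hz (Q - R) (by rw [map_sub, hQR, sub_self])
    rw [map_sub] at h1
    linarith
  refine ⟨AddMonoidHom.mk' (fun y => phi u (Function.surjInv hs y)) ?_, ?_⟩
  · intro a b
    rw [← map_add]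
    apply hz2
    rw [map_add, Function.surjInv_eq hs, Function.surjInv_eq hs, Function.surjInv_eq hs]
  · intro Q
    show phi u (Function.surjInv hs (Ideal.Quotient.mk _ Q)) = phi u Q
    apply hz2
    rw [Function.surjInv_eq hs]

theorem rec_loc {p : ℕ} [hp : Fact p.Prime] (u : ℕ → ℤ) (P : ℤ[X]) (hP : P.Monic) (hann : Ann P u)
    (hcop : ¬ (p : ℤ) ∣ P.coeff 0) (hnc : ∀ s L : ℕ, 1 ≤ L → ∃ m, u (s + L * m) ≠ u s) : LocP p u := by
  obtain ⟨L1, hL1, -, hdvd⟩ := exists_period (P.map (Int.castRingHom (ZMod p))) (hP.map _) (by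
    rw [coeff_map, eq_intCast]
    intro h
    exact hcop ((ZMod.intCast_zmod_eq_zero_iff_dvd _ p).1 h))
  obtain ⟨Bq, D1, hBD⟩ := lift_dvd (p := p) P (X ^ L1 - 1) hP (by simpa using hdvd)
  obtain ⟨ψ, hψ⟩ := psi_exists P u hann
  set x : ℤ[X] ⧸ Ideal.span {P} := Ideal.Quotient.mk _ X with hx
  have hun : ∀ n, u n = ψ (x ^ n) := by
    intro n
    rw [hx, ← map_pow, hψ, phi_X_pow]
  have h1 : (p : ℤ[X] ⧸ Ideal.span {P}) ∣ x ^ L1 - 1 := by
    refine ⟨Ideal.Quotient.mk _ D1, ?_⟩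
    have h2 := congrArg (Ideal.Quotient.mk (Ideal.span {P})) hBD
    rw [map_sub, map_pow, map_one, map_add, map_mul, map_mul,
      Ideal.Quotient.eq_zero_iff_mem.2 (Ideal.mem_span_singleton_self P), zero_mul, zero_add] at h2
    rw [hx, h2]
    simp
  have h2 := dvd_sub_pow_of_dvd_sub h1 1
  rw [one_pow, pow_one, ← pow_mul] at h2
  obtain ⟨D, hD⟩ := h2
  have hx2 : x ^ (L1 * p) = 1 + (p : ℤ[X] ⧸ Ideal.span {P}) ^ 2 * D := by
    have h3 : x ^ (L1 * p) = 1 + (x ^ (L1 * p) - 1) := by ring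
    rw [h3, hD]
  have hLp : 1 ≤ L1 * p := Nat.one_le_iff_ne_zero.2 (Nat.mul_ne_zero (by omega) hp.out.ne_zero)
  obtain ⟨c, hc, h⟩ := loc ψ x D hLp hx2 (by
    intro s
    obtain ⟨m, hm⟩ := hnc s (L1 * p) hLp
    exact ⟨m, by rw [← hun, ← hun]; exact hm⟩)
  refine ⟨L1 * p, c, hLp, hc, fun j => ?_⟩
  obtain ⟨B, hB1, hB2⟩ := h j
  refine ⟨B, hB1, fun n hn t N hN => hB2 n hn t N ?_⟩
  rw [← hun, ← hun]
  exact hN

theorem spr_of_loc {d : ℕ} (hd : 2 ≤ d) (f : ℕ → ℤ) (h : ∀ p : ℕ, p.Prime → p ∣ d → LocP p f) : Spr d f := by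
  classical
  have h' : ∀ p : ℕ, ∃ L c : ℕ, 1 ≤ L ∧ 1 ≤ c ∧ (p.Prime → p ∣ d → ∀ j : ℕ, ∃ B : ℕ → Prop,
      (∀ (X Q : ℕ) (F : Finset ℕ), F ⊆ Ioc X (X + Q) → (∀ n ∈ F, B n) → F.card ≤ c * (Q / 2 ^ (j / c) + 1)) ∧
      (∀ n, ¬ B n → ∀ t N : ℕ, (p : ℤ) ^ N ∣ f (n + L * p ^ j * t) - f n →
        (p : ℤ) ^ N ∣ (t : ℤ) * (p : ℤ) ^ (2 * j + 2))) := by
    intro p
    by_cases hp : p.Prime ∧ p ∣ d
    · obtain ⟨L, c, h1, h2, h3⟩ := h p hp.1 hp.2
      exact ⟨L, c, h1, h2, fun _ _ => h3⟩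
    · exact ⟨1, 1, le_rfl, le_rfl, fun h1 h2 => absurd ⟨h1, h2⟩ hp⟩
  choose L c hL hc hj using h'
  obtain ⟨Lt, hLt⟩ : ∃ Lt, Lt = ∏ p ∈ d.primeFactors, L p := ⟨_, rfl⟩
  have hLt1 : 1 ≤ Lt := by
    rw [hLt]
    exact Nat.one_le_iff_ne_zero.2 (Finset.prod_ne_zero_iff.2 fun p _ => by have := hL p; omega)
  have hLdvd : ∀ p ∈ d.primeFactors, L p ∣ Lt := fun p hp => by rw [hLt]; exact Finset.dvd_prod_of_mem _ hp
  obtain ⟨C1, hC1⟩ : ∃ C1, C1 = ∑ p ∈ d.primeFactors, c p := ⟨_, rfl⟩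
  have hcle : ∀ p ∈ d.primeFactors, c p ≤ C1 := fun p hp => by
    rw [hC1]; exact Finset.single_le_sum (f := c) (fun _ _ => Nat.zero_le _) hp
  refine ⟨C1 + 2 * Lt * d ^ 3 + 1, by omega, fun j => ?_⟩
  obtain ⟨C, hC⟩ : ∃ C, C = C1 + 2 * Lt * d ^ 3 + 1 := ⟨_, rfl⟩
  rw [← hC]
  have hCC1 : C1 ≤ C := by omega
  have h2 : ∀ p : ℕ, ∃ B : ℕ → Prop, p.Prime → p ∣ d →
      (∀ (X Q : ℕ) (F : Finset ℕ), F ⊆ Ioc X (X + Q) → (∀ n ∈ F, B n) → F.card ≤ c p * (Q / 2 ^ (j / c p) + 1)) ∧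
      (∀ n, ¬ B n → ∀ t N : ℕ, (p : ℤ) ^ N ∣ f (n + L p * p ^ j * t) - f n →
        (p : ℤ) ^ N ∣ (t : ℤ) * (p : ℤ) ^ (2 * j + 2)) := by
    intro p
    by_cases hp : p.Prime ∧ p ∣ d
    · obtain ⟨B, h1, h2⟩ := hj p hp.1 hp.2 j
      exact ⟨B, fun _ _ => ⟨h1, h2⟩⟩
    · exact ⟨fun _ => True, fun h1 h2 => absurd ⟨h1, h2⟩ hp⟩
  choose B hB using h2
  refine ⟨fun n => ∃ p ∈ d.primeFactors, B p n, ?_, ?_⟩
  · intro X Q F hF hbad
    have hsub : F ⊆ d.primeFactors.biUnion (fun p => F.filter (fun n => B p n)) := by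
      intro n hn
      obtain ⟨p, hp, hb⟩ := hbad n hn
      rw [mem_biUnion]
      exact ⟨p, hp, by rw [mem_filter]; exact ⟨hn, hb⟩⟩
    calc F.card ≤ ∑ p ∈ d.primeFactors, (F.filter (fun n => B p n)).card := (card_le_card hsub).trans card_biUnion_le
      _ ≤ ∑ p ∈ d.primeFactors, c p * (Q / 2 ^ (j / C) + 1) := by
          apply sum_le_sum
          intro p hp
          have hp' := Nat.mem_primeFactors.1 hp
          have h3 := (hB p hp'.1 hp'.2.1).1 X Q (F.filter (fun n => B p n)) ((filter_subset _ _).trans hF)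
            (fun n hn => (mem_filter.1 hn).2)
          refine h3.trans (Nat.mul_le_mul_left _ ?_)
          have h4 : j / C ≤ j / c p := Nat.div_le_div_left ((hcle p hp).trans hCC1) (hc p)
          have h5 : Q / 2 ^ (j / c p) ≤ Q / 2 ^ (j / C) :=
            Nat.div_le_div_left (Nat.pow_le_pow_right (by norm_num) h4) (by positivity)
          omega
      _ = C1 * (Q / 2 ^ (j / C) + 1) := by rw [hC1, sum_mul]
      _ ≤ C * (Q / 2 ^ (j / C) + 1) := Nat.mul_le_mul_right _ hCC1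
  · intro N X Q F v hQ hF hv
    have hd0 : 0 < d := by omega
    rcases Nat.lt_or_ge N (j + 2) with hNj | hNj
    · have h1 := card_le_card hF
      rw [Nat.card_Ioc] at h1
      have h3 : d ^ (N + 1) ≤ d ^ (j + 2) := Nat.pow_le_pow_right hd0 (by omega)
      have h4 : d ^ (j + 2) ≤ d ^ 3 * d ^ (2 * j) := by
        rw [← pow_add]; exact Nat.pow_le_pow_right hd0 (by omega)
      have h5 : d ^ 3 ≤ C := by
        have : 1 * d ^ 3 ≤ 2 * Lt * d ^ 3 := Nat.mul_le_mul_right _ (by omega)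
        omega
      have h6 : d ^ 3 * d ^ (2 * j) ≤ C * d ^ (2 * j) := Nat.mul_le_mul_right _ h5
      omega
    -- the differences
    have hdiff : ∀ n ∈ F, ∀ n' ∈ F, n < n' → (Lt * d ^ j) ∣ n' - n → d ^ (N - (j + 2)) ∣ n' - n := by
      intro n hn n' hn' hlt hdv
      obtain ⟨t0, ht0⟩ := hdv
      have hfd : (d : ℤ) ^ N ∣ f n' - f n := by
        apply Int.dvd_of_emod_eq_zero
        apply Int.emod_eq_emod_iff_emod_sub_eq_zero.1
        rw [(hv n hn).2, (hv n' hn').2]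
      have hkey : ((d : ℤ) ^ N) ∣ ((n' - n : ℕ) : ℤ) * (d : ℤ) ^ (j + 2) := by
        have hne : ((n' - n : ℕ) : ℤ) * (d : ℤ) ^ (j + 2) ≠ 0 := by
          apply mul_ne_zero
          · have : 0 < n' - n := by omega
            exact_mod_cast this.ne'
          · exact pow_ne_zero _ (by exact_mod_cast hd0.ne')
        apply Pool.Agent.Y927.GP.pow_dvd_of_primes (by omega) hne
        intro p hp hpd
        have hpm : p ∈ d.primeFactors := Nat.mem_primeFactors.2 ⟨hp, hpd, by omega⟩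
        obtain ⟨e, he⟩ : ∃ e, e = d.factorization p := ⟨_, rfl⟩
        rw [← he]
        have hpe : (p ^ e : ℕ) ∣ d := by rw [he]; exact Nat.ordProj_dvd d p
        have he1 : 1 ≤ e := by rw [he]; exact hp.factorization_pos_of_dvd (by omega) hpd
        obtain ⟨q, hq⟩ := hLdvd p hpm
        obtain ⟨w, hw⟩ := hpd
        have ht : n' = n + L p * p ^ j * (q * w ^ j * t0) := by
          have e1 : n' - n = L p * p ^ j * (q * w ^ j * t0) := by
            rw [ht0, hq]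
            conv_lhs => rw [hw, mul_pow]
            ring
          omega
        have hnB : ¬ B p n := fun hb => (hv n hn).1 ⟨p, hpm, hb⟩
        have h3 := (hB p hp ⟨w, hw⟩).2 n hnB (q * w ^ j * t0) (e * N) (by
          rw [← ht]
          refine Dvd.dvd.trans ?_ hfd
          rw [pow_mul]
          apply pow_dvd_pow_of_dvd
          exact_mod_cast hpe)
        refine h3.trans ?_
        have e2 : ((n' - n : ℕ) : ℤ) = (L p : ℤ) * (p : ℤ) ^ j * ((q * w ^ j * t0 : ℕ) : ℤ) := by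
          have : n' - n = L p * p ^ j * (q * w ^ j * t0) := by omega
          rw [this]; push_cast; ring
        rw [e2]
        have e3 : (p : ℤ) ^ (j + 2) ∣ (d : ℤ) ^ (j + 2) := by
          apply pow_dvd_pow_of_dvd
          exact_mod_cast (Dvd.intro _ hw.symm : p ∣ d)
        obtain ⟨z, hz⟩ := e3
        rw [hz]
        refine ⟨(L p : ℤ) * z, ?_⟩
        have e4 : (p : ℤ) ^ (2 * j + 2) = (p : ℤ) ^ j * (p : ℤ) ^ (j + 2) := by rw [← pow_add]; congr 1; ring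
        rw [e4]; ring
      have h4 : (d : ℤ) ^ (N - (j + 2)) * (d : ℤ) ^ (j + 2) ∣ ((n' - n : ℕ) : ℤ) * (d : ℤ) ^ (j + 2) := by
        rw [← pow_add, Nat.sub_add_cancel hNj]; exact hkey
      have h5 := (mul_dvd_mul_iff_right (pow_ne_zero _ (by exact_mod_cast hd0.ne' : (d : ℤ) ≠ 0))).1 h4
      exact_mod_cast h5
    have hcard : F.card ≤ (range (Lt * d ^ j) ×ˢ range (d ^ (j + 3) + 1)).card := by
      apply Finset.card_le_card_of_injOn (fun n => (n % (Lt * d ^ j), (n - X - 1) / d ^ (N - (j + 2))))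
      · intro n hn
        rw [mem_coe] at hn
        have h1 := mem_Ioc.1 (hF hn)
        rw [mem_coe, mem_product, mem_range, mem_range]
        refine ⟨Nat.mod_lt _ (by positivity), ?_⟩
        have h2 : (n - X - 1) / d ^ (N - (j + 2)) ≤ d ^ (N + 1) / d ^ (N - (j + 2)) := Nat.div_le_div_right (by omega)
        have h3 : d ^ (N + 1) / d ^ (N - (j + 2)) = d ^ (j + 3) := by
          rw [Nat.pow_div (by omega) hd0]
          congr 1
          omega
        simp only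
        omega
      · have main : ∀ n ∈ F, ∀ n' ∈ F, n < n' → n % (Lt * d ^ j) = n' % (Lt * d ^ j) →
            (n - X - 1) / d ^ (N - (j + 2)) = (n' - X - 1) / d ^ (N - (j + 2)) → False := by
          intro n hn n' hn' hlt h1 h2
          have hdv : Lt * d ^ j ∣ n' - n := (Nat.modEq_iff_dvd' hlt.le).1 h1
          have h3 := Nat.le_of_dvd (by omega) (hdiff n hn n' hn' hlt hdv)
          have h4 := mem_Ioc.1 (hF hn)
          have h5 := mem_Ioc.1 (hF hn')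
          have h6 := Nat.div_add_mod (n - X - 1) (d ^ (N - (j + 2)))
          have h7 := Nat.div_add_mod (n' - X - 1) (d ^ (N - (j + 2)))
          have h8 := Nat.mod_lt (n' - X - 1) (show 0 < d ^ (N - (j + 2)) by positivity)
          rw [h2] at h6
          obtain ⟨r, hr⟩ : ∃ r, r = (n - X - 1) % d ^ (N - (j + 2)) := ⟨_, rfl⟩
          obtain ⟨r', hr'⟩ : ∃ r', r' = (n' - X - 1) % d ^ (N - (j + 2)) := ⟨_, rfl⟩
          rw [← hr] at h6
          rw [← hr'] at h7 h8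
          generalize d ^ (N - (j + 2)) * ((n' - X - 1) / d ^ (N - (j + 2))) = a at h6 h7
          omega
        intro n hn n' hn' h
        rw [mem_coe] at hn hn'
        simp only [Prod.mk.injEq] at h
        rcases lt_trichotomy n n' with h1 | h1 | h1
        · exact (main n hn n' hn' h1 h.1 h.2).elim
        · exact h1
        · exact (main n' hn' n hn h1 h.1.symm h.2.symm).elim
    rw [card_product, card_range, card_range] at hcard
    refine hcard.trans ?_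
    have h1 : 1 ≤ d ^ (j + 3) := Nat.one_le_pow _ _ hd0
    calc Lt * d ^ j * (d ^ (j + 3) + 1) ≤ Lt * d ^ j * (2 * d ^ (j + 3)) := Nat.mul_le_mul_left _ (by omega)
      _ = 2 * Lt * d ^ 3 * d ^ (2 * j) := by ring
      _ ≤ C * d ^ (2 * j) := Nat.mul_le_mul_right _ (by omega)

/-- **The spread of the values of a linear recurrence.** -/
theorem spr_rec {d : ℕ} (hd : 2 ≤ d) (k : ℕ) (c : Fin (k + 1) → ℤ) (u : ℕ → ℤ)
    (hu : ∀ n, u (n + (k + 1)) = ∑ i : Fin (k + 1), c i * u (n + i)) (hc : IsCoprime (c 0) (d : ℤ))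
    (hnc : ∀ s L : ℕ, 1 ≤ L → ∃ m, u (s + L * m) ≠ u s) : Spr d u := by
  classical
  obtain ⟨R, hR⟩ : ∃ R : ℤ[X], R = ∑ i : Fin (k + 1), C (c i) * X ^ (i : ℕ) := ⟨_, rfl⟩
  have hRd : R.degree < (k + 1 : ℕ) := by
    rw [hR]
    refine lt_of_le_of_lt (degree_sum_le _ _) ?_
    rw [Finset.sup_lt_iff (by exact_mod_cast WithBot.bot_lt_coe _)]
    intro i _
    refine lt_of_le_of_lt (degree_C_mul_X_pow_le _ _) ?_
    exact_mod_cast i.2
  have hP : (X ^ (k + 1) - R).Monic := monic_X_pow_sub hRd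
  have hann : Ann (X ^ (k + 1) - R) u := by
    apply Pool.Agent.H853R2.Skolem.ann_of_pow
    intro n
    have h1 : (X ^ (k + 1) - R) * X ^ n = X ^ (n + (k + 1)) - ∑ i : Fin (k + 1), C (c i) * X ^ (n + (i : ℕ)) := by
      rw [hR, sub_mul, sum_mul, ← pow_add, add_comm (k + 1) n]
      congr 1
      apply sum_congr rfl
      intro i _
      rw [mul_assoc, ← pow_add, add_comm (i : ℕ) n]
    rw [h1, map_sub, map_sum, phi_X_pow, hu n, sub_eq_zero]
    apply sum_congr rfl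
    intro i _
    rw [Pool.Agent.H853R2.Skolem.phi_C_mul, phi_X_pow]
  have hcoeff : (X ^ (k + 1) - R).coeff 0 = -c 0 := by
    rw [coeff_sub, hR, finsetSum_coeff, Fin.sum_univ_succ]
    simp [coeff_X_pow]
  apply spr_of_loc hd
  intro p hp hpd
  have : Fact p.Prime := ⟨hp⟩
  refine rec_loc u _ hP hann ?_ hnc
  rw [hcoeff, dvd_neg]
  intro h
  have h1 : IsUnit (p : ℤ) := hc.isUnit_of_dvd' h (by exact_mod_cast hpd)
  rw [Int.isUnit_iff] at h1
  have := hp.two_le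
  omega

end Pool.Agent.T2H58.LR
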